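import Mathlib
import Pool.Agent.H17.PPL2

set_option autoImplicit false

namespace Pool.Agent.Results.MP_f91ac8_co.NotRegular

theorem result : ∃ (S : Type) (_ : Fintype S) (q₀ : S) (δ : S → ℕ → S) (out : S → Fin 4),
    ∀ u : ℕ → Fin 4, (∀ n, u n = out ((Nat.digits 2 n).reverse.foldl δ q₀)) →
    ∀ p : ℕ → ℕ, (∀ n, IsLeast {k | ∃ L : List (List (Fin 4)), L.length = k ∧
        (∀ w ∈ L, w ≠ [] ∧ w.reverse = w) ∧ L.flatten = (List.range' 1 n).map u} (p n)) →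
      ¬ (Submodule.span ℤ {v : ℕ → ℤ | ∃ e r, r < 2 ^ e ∧
        v = fun n => (p (2 ^ e * n + r) : ℤ)}).FG := by
  refine ⟨Pool.Agent.H17.PPL.S, inferInstance, Sum.inl 0, Pool.Agent.H17.PPL.δ,
    Pool.Agent.H17.PPL.out, fun u hu p hp => ?_⟩
  obtain rfl : u = Pool.Agent.H17.PPL.u := funext fun n => by
    rw [hu, Pool.Agent.H17.PPL.run, Pool.Agent.H17.PPL.out_τ]
  exact Pool.Agent.H17.PPL.nonreg p hp

end Pool.Agent.Results.MP_f91ac8_co.NotRegular
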